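import Pool.Agent.H53.SGC.NF

/-!
# Module NG: finitely many elements of the algebra commute with some `PP K` at some point
-/

namespace Pool.SG

open scoped ComplexConjugate

theorem ng_UU_apply (hE : ELStmt) (j : ℕ) (ξ : HH) (v : Finset ℕ) :
    (UU j ξ : Finset ℕ → ℂ) v = chi j v * ξ v := by
  have h := (hE 0 ∅ ∅ (by simp) (by simp) (chi j) 1 (chi_norm j)).1 ξ v
  unfold UU
  rw [h, low_zero, high_zero]
  simp

theorem ng_UU_bv (hE : ELStmt) (j : ℕ) (t : Finset ℕ) : UU j (bv t) = chi j t • bv t := by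
  ext v
  rw [ng_UU_apply hE, lp.coeFn_smul, Pi.smul_apply, bv_apply, smul_eq_mul]
  split_ifs with h
  · rw [h]
  · simp

theorem ng_mc_flip (hE : ELStmt) {z : ℕ → SS} {k : ℕ} {f : BB} (h : Half z k f) (j : ℕ) (x : SS)
    (s t : Finset ℕ) : mc (f (flip j x)) s t = chi j s * chi j t * mc (f x) s t := by
  unfold mc
  rw [h.1 j x]
  have h1 : (UU j * f x * UU j) (bv t) = UU j (f x (UU j (bv t))) := rfl
  rw [h1, ng_UU_bv hE, map_smul, map_smul, lp.coeFn_smul, Pi.smul_apply, ng_UU_apply hE,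
    smul_eq_mul]
  ring

theorem ng_mc_cont (f : BB) (s t : Finset ℕ) : Continuous (fun x => mc (f x) s t) := by
  have h1 : Continuous (fun x => (f x) (bv t)) :=
    (ContinuousLinearMap.apply ℂ HH (bv t)).continuous.comp f.continuous
  exact (continuous_apply s).comp ((lp.uniformContinuous_coe).continuous.comp h1)

/-- real or imaginary part -/
def ngPart (b : Bool) (c : ℂ) : ℝ := if b then c.re else c.im

theorem ngPart_cont (b : Bool) : Continuous (ngPart b) := by
  unfold ngPart
  cases b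
  · simpa using Complex.continuous_im
  · simpa using Complex.continuous_re

/-- `f` or `star f` -/
noncomputable def ngSt (b : Bool) (f : BB) : BB := if b then f else star f

theorem ngSt_half {z : ℕ → SS} {k : ℕ} {f : BB} (h : Good z k f) (b : Bool) :
    Half z k (ngSt b f) := by
  unfold ngSt
  cases b
  · simpa using h.2
  · simpa using h.1

theorem sup_mem_of_nonempty (s : Finset ℕ) (h : s.Nonempty) : s.sup id ∈ s := by
  obtain ⟨i, hi, h1⟩ := Finset.exists_mem_eq_sup s h id
  rw [h1]; exact hi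

theorem ng_not_subset {s : Finset ℕ} {K : ℕ} (h : ¬ s ⊆ Finset.range K) :
    s.Nonempty ∧ K ≤ s.sup id := by
  rw [Finset.not_subset] at h
  obtain ⟨a, ha, hK⟩ := h
  refine ⟨⟨a, ha⟩, ?_⟩
  have h1 : K ≤ a := by simpa using hK
  exact h1.trans (Finset.le_sup (f := id) ha)

/-- coefficients vanish: one half of commutation -/
theorem ng_half_comm (hE : ELStmt) {z : ℕ → SS} {K m : ℕ} (hKm : K ≤ m) {f : BB}
    (h : Half z m f) (x : SS)
    (h0 : ∀ s t : Finset ℕ, s ⊆ Finset.range m → ¬ s ⊆ Finset.range K → t ⊆ Finset.range K →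
      mc (f x) s t = 0) : PP K * f x * PP K = f x * PP K := by
  have hR : Finset.range K ⊆ Finset.range m := by
    intro a ha
    simp at ha ⊢
    omega
  have hb : ∀ t, t ⊆ Finset.range K → PP K (f x (bv t)) = f x (bv t) := by
    intro t ht
    ext v
    rw [PP_apply hE]
    split_ifs with hv
    · rfl
    · by_cases hv2 : v ⊆ Finset.range m
      · exact (h0 v t hv2 hv ht).symm
      · have h1 := (h.2 m le_rfl x).1
        have h2 : PP m (f x (bv t)) = f x (PP m (bv t)) :=
          congrArg (fun V : BH => V (bv t)) h1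
        rw [PP_bv hE m t (ht.trans hR)] at h2
        rw [← h2, PP_apply hE, if_neg hv2]
  ext1 ξ
  change PP K (f x (PP K ξ)) = f x (PP K ξ)
  have hfix : PP K (PP K ξ) = PP K ξ := by
    ext v
    rw [PP_apply hE, PP_apply hE]
    split_ifs <;> rfl
  rw [fixed_eq_sum hE K (PP K ξ) hfix]
  simp only [map_sum, map_smul]
  refine Finset.sum_congr rfl (fun r hr => ?_)
  rw [hb r (Finset.mem_powerset.mp hr)]

theorem ng_comm (hE : ELStmt) (hEA : ELAStmt) {z : ℕ → SS} {K m : ℕ} (hKm : K ≤ m) {f : BB}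
    (h : Good z m f) (x : SS)
    (h0 : ∀ (b : Bool) (s t : Finset ℕ), s ⊆ Finset.range m → ¬ s ⊆ Finset.range K →
      t ⊆ Finset.range K → mc (ngSt b f x) s t = 0) : PP K * f x = f x * PP K := by
  have h1 := ng_half_comm hE hKm h.1 x (fun s t a b c => by simpa [ngSt] using h0 true s t a b c)
  have h2 := ng_half_comm hE hKm h.2 x (fun s t a b c => by simpa [ngSt] using h0 false s t a b c)
  have h3 := congrArg star h2
  have h4 : (star f) x = star (f x) := rfl
  rw [h4, star_mul, star_mul, star_mul, star_star, star_PP hEA] at h3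
  exact (h3.symm.trans (mul_assoc _ _ _).symm).trans h1

/-- index type of the family of functions -/
abbrev NgI (n K m : ℕ) : Type :=
  Fin n × Bool × Bool ×
    ((Finset.range m).powerset.filter (fun s => ¬ s ⊆ Finset.range K) : Finset (Finset ℕ)) ×
    ((Finset.range K).powerset : Finset (Finset ℕ))

theorem ng_card (n K m : ℕ) (hn : n ≤ K) (j : ℕ) :
    Fintype.card {i : NgI n K m // (i.2.2.2.1 : Finset ℕ).sup id = j} ≤ NN j := by
  classical
  by_cases hjK : j < K
  · have : IsEmpty {i : NgI n K m // (i.2.2.2.1 : Finset ℕ).sup id = j} := by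
      refine ⟨fun i => ?_⟩
      have h1 := i.1.2.2.2.1.2
      rw [Finset.mem_filter] at h1
      have h2 := (ng_not_subset h1.2).2
      have h3 := i.2
      omega
    rw [Fintype.card_eq_zero]
    exact Nat.zero_le _
  · have hjK' : K ≤ j := not_lt.mp hjK
    have hmem : ∀ i : {i : NgI n K m // (i.2.2.2.1 : Finset ℕ).sup id = j},
        j ∈ (i.1.2.2.2.1 : Finset ℕ) := by
      intro i
      have h1 := i.1.2.2.2.1.2
      rw [Finset.mem_filter] at h1
      have h2 := sup_mem_of_nonempty _ (ng_not_subset h1.2).1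
      rw [i.2] at h2
      exact h2
    have hle : ∀ i : {i : NgI n K m // (i.2.2.2.1 : Finset ℕ).sup id = j},
        (i.1.2.2.2.1 : Finset ℕ).erase j ∈ (Finset.range j).powerset := by
      intro i
      rw [Finset.mem_powerset]
      intro a ha
      rw [Finset.mem_erase] at ha
      have h1 : a ≤ (i.1.2.2.2.1 : Finset ℕ).sup id := Finset.le_sup (f := id) ha.2
      rw [i.2] at h1
      have h2 := ha.1
      simp only [Finset.mem_range]
      omega
    have h1 : Fintype.card {i : NgI n K m // (i.2.2.2.1 : Finset ℕ).sup id = j} ≤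
        Fintype.card (Fin n × Bool × Bool × ((Finset.range j).powerset : Finset (Finset ℕ)) ×
          ((Finset.range K).powerset : Finset (Finset ℕ))) := by
      refine Fintype.card_le_of_injective
        (fun i => (i.1.1, i.1.2.1, i.1.2.2.1, ⟨_, hle i⟩, i.1.2.2.2.2)) ?_
      intro i i' h
      simp only [Prod.mk.injEq, Subtype.mk.injEq] at h
      obtain ⟨ha, hb, hc, hd, he⟩ := h
      have hs : (i.1.2.2.2.1 : Finset ℕ) = (i'.1.2.2.2.1 : Finset ℕ) := by
        rw [← Finset.insert_erase (hmem i), ← Finset.insert_erase (hmem i'), hd]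
      apply Subtype.ext
      refine Prod.ext ha (Prod.ext hb (Prod.ext hc (Prod.ext (Subtype.ext hs) he)))
    refine h1.trans ?_
    simp only [Fintype.card_prod, Fintype.card_fin, Fintype.card_bool, Fintype.card_coe,
      Finset.card_powerset, Finset.card_range]
    unfold NN
    have h2 : 2 ^ K ≤ 2 ^ j := Nat.pow_le_pow_right (by norm_num) hjK'
    have h3 : (4 : ℕ) ^ j = 2 ^ j * 2 ^ j := by
      rw [← mul_pow]
      norm_num
    calc n * (2 * (2 * (2 ^ j * 2 ^ K))) = 4 * n * (2 ^ j * 2 ^ K) := by ring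
      _ ≤ 4 * (j + 1) * (2 ^ j * 2 ^ j) := by
        refine Nat.mul_le_mul (Nat.mul_le_mul le_rfl (by omega)) (Nat.mul_le_mul le_rfl h2)
      _ = 4 * (j + 1) * 4 ^ j := by rw [h3]

theorem ng_approx (hM : MBUStmt) (hE : ELStmt) (hEA : ELAStmt) {z : ℕ → SS} {n K m : ℕ}
    (hn : n ≤ K) (hKm : K ≤ m) (f : Fin n → BB) (h : ∀ i, Good z m (f i)) :
    ∃ x : SS, ∀ i, PP K * f i x = f i x * PP K := by
  classical
  have key := hM NN (Finset.Ico K m) (NgI n K m) (fun i => (i.2.2.2.1 : Finset ℕ).sup id)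
    (by
      intro i
      have h1 := i.2.2.2.1.2
      rw [Finset.mem_filter] at h1
      have h2 := ng_not_subset h1.2
      have h3 := Finset.mem_powerset.mp h1.1 (sup_mem_of_nonempty _ h2.1)
      rw [Finset.mem_Ico]
      exact ⟨h2.2, Finset.mem_range.mp h3⟩)
    (fun j => by convert ng_card n K m hn j)
    (fun i x => ngPart i.2.1 (mc (ngSt i.2.2.1 (f i.1) x) i.2.2.2.1 i.2.2.2.2))
    (fun i => (ngPart_cont _).comp (ng_mc_cont _ _ _))
    (by
      intro i l hl x
      have h1 := i.2.2.2.1.2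
      rw [Finset.mem_filter] at h1
      have h2 := ng_not_subset h1.2
      rw [Finset.mem_Ico] at hl
      have ht := Finset.mem_powerset.mp i.2.2.2.2.2
      have hct : chi l (i.2.2.2.2 : Finset ℕ) = 1 := by
        unfold chi
        rw [if_neg]
        rintro ⟨h3, h4⟩
        have h5 := Finset.mem_range.mp (ht (sup_mem_of_nonempty _ h3))
        omega
      have hm := ng_mc_flip hE (ngSt_half (h i.1) i.2.2.1) l x
        (i.2.2.2.1 : Finset ℕ) (i.2.2.2.2 : Finset ℕ)
      rw [hct, mul_one] at hm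
      rw [hm]
      by_cases hl2 : l = (i.2.2.2.1 : Finset ℕ).sup id
      · rw [if_pos hl2]
        have hcs : chi l (i.2.2.2.1 : Finset ℕ) = -1 := by
          unfold chi
          rw [if_pos ⟨h2.1, hl2.symm⟩]
        rw [hcs]
        unfold ngPart
        split_ifs <;> simp
      · rw [if_neg hl2]
        have hcs : chi l (i.2.2.2.1 : Finset ℕ) = 1 := by
          unfold chi
          rw [if_neg (fun h6 => hl2 h6.2.symm)]
        rw [hcs, one_mul])
  obtain ⟨x, hx⟩ := key
  refine ⟨x, fun i => ng_comm hE hEA hKm (h i) x (fun b s t hs hs2 ht => ?_)⟩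
  have h1 := hx (i, true, b, ⟨s, Finset.mem_filter.mpr ⟨Finset.mem_powerset.mpr hs, hs2⟩⟩,
    ⟨t, Finset.mem_powerset.mpr ht⟩)
  have h2 := hx (i, false, b, ⟨s, Finset.mem_filter.mpr ⟨Finset.mem_powerset.mpr hs, hs2⟩⟩,
    ⟨t, Finset.mem_powerset.mpr ht⟩)
  simp only [ngPart] at h1 h2
  apply Complex.ext
  · simpa using h1
  · simpa using h2

theorem good_mono {z : ℕ → SS} {k k' : ℕ} {f : BB} (h : Good z k f) (hk : k ≤ k') :
    Good z k' f := ⟨h.1.mono hk, h.2.mono hk⟩

theorem ng (hM : MBUStmt) (hGD : GDStmt) (hE : ELStmt) (hEA : ELAStmt) : NGStmt := by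
  classical
  intro z F hF hFA
  set n := hF.toFinset.card with hn
  let e : Fin n ≃ hF.toFinset := hF.toFinset.equivFin.symm
  let f : Fin n → BB := fun i => (e i).1
  have hfA : ∀ i, f i ∈ AA z := fun i => hFA (hF.mem_toFinset.mp (e i).2)
  -- the defect
  let Φ : SS → ℝ := fun x => ∑ i, ‖PP n * f i x - f i x * PP n‖
  have hΦc : Continuous Φ := by
    refine continuous_finsetSum _ (fun i _ => ?_)
    have hc : Continuous (fun x => f i x) := (f i).continuous
    exact ((continuous_const.mul hc).sub (hc.mul continuous_const)).norm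
  have hΦsmall : ∀ ε : ℝ, 0 < ε → ∃ x, Φ x ≤ n * (2 * ‖PP n‖ * ε) := by
    intro ε hε
    have hcl : ∀ i, ∃ g ∈ A0 z, ‖f i - g‖ < ε := by
      intro i
      have h1 : f i ∈ closure ((A0 z : StarSubalgebra ℂ BB) : Set BB) := by
        have := hfA i
        exact this
      obtain ⟨g, hg, hd⟩ := Metric.mem_closure_iff.mp h1 ε hε
      exact ⟨g, hg, by rwa [dist_eq_norm] at hd⟩
    choose g hgA hgd using hcl
    choose k hk using fun i => hGD z (g i) (hgA i)
    let m := max n (Finset.univ.sup k)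
    have hkm : ∀ i, k i ≤ m := fun i => (Finset.le_sup (Finset.mem_univ i)).trans (le_max_right _ _)
    obtain ⟨x, hx⟩ := ng_approx hM hE hEA (le_refl n) (le_max_left n (Finset.univ.sup k)) g
      (fun i => good_mono (hk i) (hkm i))
    refine ⟨x, ?_⟩
    have hb : ∀ i ∈ (Finset.univ : Finset (Fin n)), ‖PP n * f i x - f i x * PP n‖ ≤
        2 * ‖PP n‖ * ε := by
      intro i _
      have h1 : PP n * f i x - f i x * PP n =
          PP n * (f i x - g i x) - (f i x - g i x) * PP n := by
        rw [mul_sub, sub_mul, hx i]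
        abel
      have h2 : ‖f i x - g i x‖ ≤ ε := by
        have h3 : ‖(f i - g i) x‖ ≤ ‖f i - g i‖ := (f i - g i).norm_coe_le_norm x
        exact h3.trans (hgd i).le
      rw [h1]
      have hP : 0 ≤ ‖PP n‖ := norm_nonneg _
      calc ‖PP n * (f i x - g i x) - (f i x - g i x) * PP n‖
          ≤ ‖PP n * (f i x - g i x)‖ + ‖(f i x - g i x) * PP n‖ := norm_sub_le _ _
        _ ≤ ‖PP n‖ * ‖f i x - g i x‖ + ‖f i x - g i x‖ * ‖PP n‖ :=
            add_le_add (norm_mul_le _ _) (norm_mul_le _ _)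
        _ ≤ ‖PP n‖ * ε + ε * ‖PP n‖ := by gcongr
        _ = 2 * ‖PP n‖ * ε := by ring
    have h4 := Finset.sum_le_card_nsmul Finset.univ _ _ hb
    simpa using h4
  obtain ⟨x0, _⟩ := hΦsmall 1 one_pos
  obtain ⟨x, _, hmin⟩ := isCompact_univ.exists_isMinOn (s := (Set.univ : Set SS))
    ⟨x0, trivial⟩ hΦc.continuousOn
  have hΦ0 : Φ x ≤ 0 := by
    by_contra hpos
    rw [not_le] at hpos
    set c : ℝ := n * (2 * ‖PP n‖) with hc
    have hc0 : 0 ≤ c := by positivity
    obtain ⟨y, hy⟩ := hΦsmall (Φ x / (2 * (c + 1))) (by positivity)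
    have h5 : Φ x ≤ Φ y := hmin (Set.mem_univ y)
    have h6 : Φ x ≤ c * (Φ x / (2 * (c + 1))) := by
      calc Φ x ≤ Φ y := h5
        _ ≤ _ := hy
        _ = c * (Φ x / (2 * (c + 1))) := by rw [hc]; ring
    have h7 : c * (Φ x / (2 * (c + 1))) < Φ x := by
      rw [mul_div_assoc', div_lt_iff₀ (by positivity)]
      nlinarith
    linarith
  refine ⟨x, n, fun a ha => ?_⟩
  have hnn : ∀ i ∈ (Finset.univ : Finset (Fin n)), 0 ≤ ‖PP n * f i x - f i x * PP n‖ :=
    fun i _ => norm_nonneg _
  have hz := (Finset.sum_eq_zero_iff_of_nonneg hnn).mp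
    (le_antisymm hΦ0 (Finset.sum_nonneg hnn))
  obtain ⟨i, hi⟩ := e.surjective ⟨a, hF.mem_toFinset.mpr ha⟩
  have h8 := hz i (Finset.mem_univ i)
  have h9 : f i = a := by
    change (e i).1 = a
    rw [hi]
  rw [h9] at h8
  exact sub_eq_zero.mp (norm_eq_zero.mp h8)

end Pool.SG
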